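import Pool.Agent.Y128.CY.Stm

/-!
# The projections to the eigenspaces of an operator annihilated by the cyclotomic polynomial
-/

set_option autoImplicit false

namespace Pool.Agent.Y574.CY

open Module Polynomial Pool.Agent.Y128.CY

variable {Ω : Type} [Field Ω] {n : ℕ} [NeZero n]

theorem evn_inj {z₀ : Ω} (hz : IsPrimitiveRoot z₀ n) :
    Function.Injective (evn (n := n) z₀) := by
  intro i j h
  exact Units.ext (ZMod.val_injective n (hz.pow_inj (ZMod.val_lt _) (ZMod.val_lt _) h))

theorem image_evn [DecidableEq Ω] {z₀ : Ω} (hz : IsPrimitiveRoot z₀ n) :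
    Finset.univ.image (evn (n := n) z₀) = primitiveRoots n Ω := by
  ext μ
  rw [Finset.mem_image, mem_primitiveRoots (NeZero.pos n), hz.isPrimitiveRoot_iff]
  constructor
  · rintro ⟨j, _, rfl⟩
    exact ⟨_, ZMod.val_lt _, ZMod.val_coe_unit_coprime j, rfl⟩
  · rintro ⟨i, hi, hc, rfl⟩
    refine ⟨ZMod.unitOfCoprime i hc, Finset.mem_univ _, ?_⟩
    rw [evn, ZMod.coe_unitOfCoprime, ZMod.val_natCast, Nat.mod_eq_of_lt hi]

/-- The cyclotomic polynomial is the product of the linear factors of the eigenvalues. -/
theorem cyc_eq {z₀ : Ω} (hz : IsPrimitiveRoot z₀ n) :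
    cyclotomic n Ω = ∏ j : (ZMod n)ˣ, (X - C (evn z₀ j)) := by
  classical
  rw [cyclotomic_eq_prod_X_sub_primitiveRoots hz, ← image_evn hz,
    Finset.prod_image (fun i _ j _ h => evn_inj hz h)]

theorem basis_eq {ι : Type} [Fintype ι] [DecidableEq ι] (v : ι → Ω) (j : ι) :
    ∃ c : Ω, Lagrange.basis Finset.univ v j
      = C c * ∏ i ∈ Finset.univ.erase j, (X - C (v i)) := by
  refine ⟨∏ i ∈ Finset.univ.erase j, (v j - v i)⁻¹, ?_⟩
  rw [map_prod, ← Finset.prod_mul_distrib]
  rfl

/-- A polynomial in an operator acts on an eigenvector by its value at the eigenvalue. -/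
theorem aeval_eig {M : Type} [AddCommGroup M] [Module Ω M] (S : Module.End Ω M) (f : Polynomial Ω)
    {z : Ω} {x : M} (hx : x ∈ Module.End.eigenspace S z) : aeval S f x = f.eval z • x := by
  have h0 : ∀ i : ℕ, (S ^ i) x = z ^ i • x := by
    intro i
    induction i with
    | zero => simp
    | succ i ih =>
      rw [pow_succ', Module.End.mul_apply, ih, map_smul, Module.End.mem_eigenspace_iff.1 hx,
        smul_smul, ← pow_succ]
  induction f using Polynomial.induction_on' with
  | add p q hp hq => rw [map_add, LinearMap.add_apply, hp, hq, eval_add, add_smul]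
  | monomial i a =>
    rw [aeval_monomial, eval_monomial, Module.End.mul_apply, h0, Module.algebraMap_end_apply,
      smul_smul]

theorem t_EIG : S_EIG := by
  intro Ω _ _ M _ _ n _ S z₀ hz hS
  classical
  have hinj := evn_inj hz
  have hcyc := cyc_eq hz
  refine ⟨fun j => aeval S (Lagrange.basis Finset.univ (evn (n := n) z₀) j),
    ?_, ?_, ?_, ?_, ?_⟩
  · intro j
    exact aeval_mem_adjoin_singleton _ _
  · intro j x
    rw [Module.End.mem_eigenspace_iff]
    obtain ⟨c, hc⟩ := basis_eq (evn (n := n) z₀) j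
    have h1 : (X - C (evn z₀ j)) * Lagrange.basis Finset.univ (evn (n := n) z₀) j
        = C c * cyclotomic n Ω := by
      rw [hc, hcyc, ← Finset.mul_prod_erase Finset.univ _ (Finset.mem_univ j)]
      ring
    have h2 := congrArg (aeval S) h1
    rw [map_mul, map_mul, hS, mul_zero, map_sub, aeval_X, aeval_C] at h2
    have h3 := congrArg (fun f : Module.End Ω M => f x) h2
    have h4 : S (aeval S (Lagrange.basis Finset.univ (evn (n := n) z₀) j) x)
        - evn z₀ j • aeval S (Lagrange.basis Finset.univ (evn (n := n) z₀) j) x = 0 := h3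
    exact sub_eq_zero.1 h4
  · intro j x hx
    have h1 := aeval_eig S (Lagrange.basis Finset.univ (evn (n := n) z₀) j) hx
    rw [Lagrange.eval_basis_self (hinj.injOn) (Finset.mem_univ j), one_smul] at h1
    exact h1
  · intro j j' hj x hx
    have h1 := aeval_eig S (Lagrange.basis Finset.univ (evn (n := n) z₀) j) hx
    rw [Lagrange.eval_basis_of_ne hj (Finset.mem_univ j'), zero_smul] at h1
    exact h1
  · rw [← map_sum, Lagrange.sum_basis hinj.injOn Finset.univ_nonempty, map_one]

end Pool.Agent.Y574.CY
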